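import Pool.Agent.helper70.BND.SpecH

/-!
# Project bnd (MP_376aaf_an), block H: row FBM, a band inside `FX`
-/

set_option autoImplicit false

open scoped Topology
open Finset

namespace Pool.Agent.BND.EX

theorem FBM (hGDX : GDX_stmt) (hPSL : PSL_stmt) (hMKL : MKL_stmt) : FBM_stmt := by
  intro A J κ₀ κ₁ Cc Bb Y Z e hA hYZ he hBb hNr
  have hM := hMKL A hA
  have hlv : IsLv A.l := hM.1
  have hX : ∀ x ∈ Y ++ (A.l.W e false ++ Z), x < A.n := by
    intro x hx
    rcases List.mem_append.1 hx with h | h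
    · exact hYZ x (List.mem_append_left _ h)
    · rcases List.mem_append.1 h with h | h
      · exact hlv.mem e he false x h
      · exact hYZ x (List.mem_append_right _ h)
  have hne : Y ++ (A.l.W e false ++ Z) ≠ [] := by
    intro h
    exact hM.2.2.2.2.2.1 e false he (List.append_eq_nil_iff.1 (List.append_eq_nil_iff.1 h).2).1
  have hG := (hGDX A J κ₀ κ₁ Cc Bb _ hA hX hne hBb hNr).2
  have h1 := (hPSL A.l (Gd A.l J κ₀ κ₁ Cc Bb) ((0, 0) :: (Dl A.l.N J ++ vw Y)) (vw Z ++ [(0, 0)]) e hlv he (fun t ht => by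
    have h2 := hG Y Z e t he ht (List.Perm.refl _)
    simpa only [List.append_assoc, List.cons_append] using h2)).2
  have e1 : ∀ b, (0, 0) :: (Dl A.l.N J ++ vw Y) ++ (vw (A.l.W e b) ++ (vw Z ++ [(0, 0)])) =
      FX A.l J (Y ++ (A.l.W e b ++ Z)) := by
    intro b
    unfold FX
    simp only [vw_append, List.append_assoc, List.cons_append]
  rw [e1, e1] at h1
  exact h1

end Pool.Agent.BND.EX
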