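import Pool.Agent.helper70.BND.SpecH

/-!
# Project bnd (MP_376aaf_an), block H: row PDC, decorations become vertices
-/

set_option autoImplicit false

open scoped Topology
open Finset

namespace Pool.Agent.BND.EX

theorem PDC (hPSL : PSL_stmt) (hPTR : PTR_stmt) (hPRF : PRF_stmt) : PDC_stmt := by
  intro l Q D
  induction D with
  | nil =>
    intro A R _ _ hQ _
    have h1 : Q (A ++ ([] ++ R)) := hQ [] [] rfl
    exact (hPRF l Q).2 _ _ _ _ _ _ ((hPRF l Q).1 _ h1) (fun _ _ => rfl) (by
      rintro x ⟨a, ha, -⟩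
      exact absurd ha List.not_mem_nil)
  | cons a D ih =>
    intro A R hl hD hQ hQ'
    have ha := hD a List.mem_cons_self
    have h1 := (hPSL l Q A (D ++ R) a.1 hl ha.1 (fun t ht => hQ' [] a D t rfl ht)).1 a.2 ha.2
    have h2 := ih (A ++ vw (l.W a.1 false)) R hl (fun b hb => hD b (List.mem_cons_of_mem _ hb))
      (fun D₁ D₂ h => by
        have h3 := hQ (a :: D₁) D₂ (by rw [h]; rfl)
        rw [List.flatMap_cons, vw_append] at h3
        simpa only [List.append_assoc] using h3)
      (fun D₁ b D₂ t h ht => by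
        have h3 := hQ' (a :: D₁) b D₂ t (by rw [h]; rfl) ht
        rw [List.flatMap_cons, vw_append] at h3
        simpa only [List.append_assoc] using h3)
    have e1 : A ++ vw (l.W a.1 false) ++ (D ++ R) = A ++ (vw (l.W a.1 false) ++ (D ++ R)) := List.append_assoc _ _ _
    have e2 : A ++ vw (l.W a.1 false) ++ (vw (D.flatMap fun a => l.W a.1 false) ++ R) =
        A ++ (vw ((a :: D).flatMap fun a => l.W a.1 false) ++ R) := by
      rw [List.flatMap_cons, vw_append]
      simp only [List.append_assoc]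
    rw [e1, e2] at h2
    have h3 := hPTR l Q _ _ _ _ _ _ _ h1 h2
    refine (hPRF l Q).2 _ _ _ _ _ _ h3 (fun _ _ => add_zero _) ?_
    rintro x ⟨b, hb, hx⟩
    rcases List.mem_cons.1 hb with rfl | hb
    · exact Or.inl hx
    · exact Or.inr ⟨b, hb, hx⟩

end Pool.Agent.BND.EX
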